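import Pool.Agent.KS6_79.JN.Core

set_option autoImplicit false

/-!
# Sparse Boolean functions of near-minimal total influence: junta approximation at every accuracy

The bound asked for in Q1, with `M / ε` replaced by `c M / ε` for any constant `c < 2`, fails for
every accuracy `0 < ε < 1`, for every density `2 ^ (-s)` and for all sufficiently large `M`.
-/

namespace Pool.Agent.Results.MP_5036fd_co.ExponentTwo

open Finset

/-- Probability of the event `P` under the uniform distribution on `{0,1}^n`. -/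
noncomputable def prob {n : ℕ} (P : (Fin n → Bool) → Prop) : ℝ :=
  (Nat.card {x : Fin n → Bool // P x} : ℝ) / 2 ^ n

/-- `μ(f) = Pr[f(x) = 1]` -/
noncomputable def density {n : ℕ} (f : (Fin n → Bool) → Bool) : ℝ := prob (fun x => f x = true)

/-- the influence `I_i(f) = Pr[f(x) ≠ f(x ⊕ e_i)]` of the coordinate `i` -/
noncomputable def influence {n : ℕ} (f : (Fin n → Bool) → Bool) (i : Fin n) : ℝ :=
  prob (fun x => f x ≠ f (Function.update x i (!x i)))

/-- the total influence `I(f)` -/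
noncomputable def totalInfluence {n : ℕ} (f : (Fin n → Bool) → Bool) : ℝ := ∑ i, influence f i

/-- `g(x)` is determined by the coordinates `x_j`, `j ∈ J` -/
def DependsOnlyOn {n : ℕ} (g : (Fin n → Bool) → Bool) (J : Finset (Fin n)) : Prop :=
  ∀ x y : Fin n → Bool, (∀ j ∈ J, x j = y j) → g x = g y

/-- The statement asked for in Q1 for the constant `C`, with `c M / ε` in place of `M / ε` in the
exponent (Q1 is the case `c = 1`), restricted to the accuracy `ε`, to functions of density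
`2 ^ (-s)` and to `M ≥ M₀`. -/
def JuntaBound (c C ε M₀ : ℝ) (s : ℕ) : Prop :=
  ∀ M : ℝ, 0 < M → M₀ ≤ M → ∀ n : ℕ, 1 ≤ n → ∀ f : (Fin n → Bool) → Bool, density f = 1 / 2 ^ s →
    totalInfluence f ≤ 2 * density f * (Real.logb 2 (1 / density f) + M) →
    ∃ (g : (Fin n → Bool) → Bool) (J : Finset (Fin n)), DependsOnlyOn g J ∧
      (J.card : ℝ) ≤ C * Real.logb 2 (1 / density f) * 2 ^ (c * (M / ε)) ∧
      prob (fun x => f x ≠ g x) ≤ ε * density f

section transport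

open Pool.Agent.H.MP_5036fd_co Pool.Agent.KS6_79.JN

variable {ι : Type} [Fintype ι] [DecidableEq ι] {n : ℕ}

theorem prob_tr (e : ι ≃ Fin n) (P : (ι → Bool) → Prop) [DecidablePred P] :
    prob (fun x : Fin n → Bool => P (x ∘ e)) = pr P := by
  have hn : Fintype.card ι = n := by simpa using Fintype.card_congr e
  have h : Nat.card {x : Fin n → Bool // P (x ∘ e)} = Nat.card {x : ι → Bool // P x} := by
    refine Nat.card_congr ⟨fun x => ⟨x.1 ∘ e, x.2⟩, fun x => ⟨x.1 ∘ e.symm, ?_⟩, ?_, ?_⟩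
    · have : (x.1 ∘ e.symm) ∘ e = x.1 := by funext j; simp
      rw [this]; exact x.2
    · intro x; apply Subtype.ext; funext j; simp
    · intro x; apply Subtype.ext; funext j; simp
  unfold prob pr
  rw [h, Nat.card_eq_fintype_card, Fintype.card_subtype, hn]

/-- part (1): explicit hard functions -/
theorem explicitFin (s : ℕ) (hs : 1 ≤ s) (b k m : ℕ) (hm : m ≤ 2 ^ b) :
    ∃ (n : ℕ) (f : (Fin n → Bool) → Bool), 1 ≤ n ∧ density f = 1 / 2 ^ s ∧
      totalInfluence f ≤ 2 * density f *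
        (Real.logb 2 (1 / density f) + (k * (m / 2 ^ b : ℝ) + b) / 2) ∧
      ∀ (ε : ℝ) (g : (Fin n → Bool) → Bool) (J : Finset (Fin n)), DependsOnlyOn g J →
        prob (fun x => f x ≠ g x) ≤ ε * density f →
        ((m / 2 ^ b : ℝ) - ε) * 2 ^ k ≤ (m / 2 ^ b : ℝ) * J.card := by
  obtain ⟨r, rfl⟩ : ∃ r, s = r + 1 := ⟨s - 1, by omega⟩
  obtain ⟨R, -, hR⟩ := exists_subset_card_eq (s := (univ : Finset (Fin b → Bool))) (n := m)
    (by simpa using hm)
  obtain ⟨ι, _, _, hne, f, h1, h2, h3⟩ := explicit r b k R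
  rw [hR] at h2 h3
  let e : ι ≃ Fin (Fintype.card ι) := Fintype.equivFin ι
  have hd : density (fun x : Fin (Fintype.card ι) → Bool => f (x ∘ e)) = 1 / 2 ^ (r + 1) :=
    (prob_tr e (fun x => f x = true)).trans h1
  have hlog : Real.logb 2 (1 / (1 / 2 ^ (r + 1))) = ((r + 1 : ℕ) : ℝ) := by
    rw [one_div_one_div, Real.logb_pow, Real.logb_self_eq_one (by norm_num), mul_one]
  refine ⟨Fintype.card ι, fun x => f (x ∘ e), Fintype.card_pos, hd, ?_, ?_⟩
  · rw [hd, hlog]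
    refine le_trans (le_of_eq ?_) h2
    unfold totalInfluence infl
    rw [← e.sum_comp]
    refine sum_congr rfl fun i _ => ?_
    rw [← prob_tr e (fun x => f x ≠ f (Function.update x i (!x i)))]
    unfold influence
    congr 1
    funext x
    beta_reduce
    rw [Function.update_comp_equiv]
    simp
  · intro ε g J hg he
    rw [hd] at he
    have h4 := h3 ε (fun y => g (y ∘ e.symm)) (J.map e.symm.toEmbedding)
      (fun x y h => hg _ _ fun j hj => h _ (mem_map_of_mem _ hj)) (by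
        rw [← prob_tr e]
        refine le_trans (le_of_eq ?_) he
        congr 1
        funext x
        have : (x ∘ e) ∘ e.symm = x := by funext j; simp
        rw [this])
    rwa [card_map] at h4

end transport

theorem dyadic (ε β : ℝ) (hε : 0 < ε) (h : ε < β) :
    ∃ b m : ℕ, ε < m / 2 ^ b ∧ (m : ℝ) / 2 ^ b < β := by
  obtain ⟨b, hb⟩ := pow_unbounded_of_one_lt (1 / (β - ε)) (one_lt_two (α := ℝ))
  have h2 : (0 : ℝ) < 2 ^ b := by positivity
  have hb' : 1 < (β - ε) * 2 ^ b := by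
    rw [div_lt_iff₀ (by linarith)] at hb
    linarith
  refine ⟨b, ⌊ε * 2 ^ b⌋₊ + 1, ?_, ?_⟩
  · rw [lt_div_iff₀ h2]
    push_cast
    exact Nat.lt_floor_add_one _
  · rw [div_lt_iff₀ h2]
    push_cast
    have := Nat.floor_le (show 0 ≤ ε * 2 ^ b by positivity)
    linarith

/-- part (2) -/
theorem strong (c C ε : ℝ) (hc : c < 2) (hε : 0 < ε) (hε1 : ε < 1) (s : ℕ) (hs : 1 ≤ s) :
    ∃ M₀ : ℝ, ∀ M : ℝ, M₀ ≤ M → ∃ n : ℕ, 1 ≤ n ∧ ∃ f : (Fin n → Bool) → Bool,
      density f = 1 / 2 ^ s ∧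
      totalInfluence f ≤ 2 * density f * (Real.logb 2 (1 / density f) + M) ∧
      ∀ (g : (Fin n → Bool) → Bool) (J : Finset (Fin n)), DependsOnlyOn g J →
        prob (fun x => f x ≠ g x) ≤ ε * density f →
        C * Real.logb 2 (1 / density f) * 2 ^ (c * (M / ε)) < (J.card : ℝ) := by
  obtain ⟨c', hc'0, hc'1, hcc⟩ : ∃ c' : ℝ, 0 < c' ∧ c' < 2 ∧ c ≤ c' :=
    ⟨max c 1, lt_of_lt_of_le one_pos (le_max_right _ _), max_lt hc (by norm_num), le_max_left _ _⟩
  obtain ⟨C', hC'0, hCC⟩ : ∃ C' : ℝ, 0 < C' ∧ C ≤ C' :=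
    ⟨max C 1, lt_of_lt_of_le one_pos (le_max_right _ _), le_max_left _ _⟩
  obtain ⟨b, m, hα1, hα2⟩ := dyadic ε (min 1 (2 * ε / c')) hε (lt_min hε1 (by
    rw [lt_div_iff₀ hc'0]; nlinarith))
  set α : ℝ := (m : ℝ) / 2 ^ b with hα
  have hα0 : 0 < α := hε.trans hα1
  have hαl1 : α < 1 := lt_of_lt_of_le hα2 (min_le_left _ _)
  have hαl2 : α < 2 * ε / c' := lt_of_lt_of_le hα2 (min_le_right _ _)
  have hm : m ≤ 2 ^ b := by
    have h2 : (0 : ℝ) < 2 ^ b := by positivity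
    have : (m : ℝ) < 2 ^ b := by
      rw [hα, div_lt_one h2] at hαl1
      exact hαl1
    exact_mod_cast this.le
  set δ : ℝ := 2 / α - c' / ε with hδ
  have hδ0 : 0 < δ := by
    rw [hδ, sub_pos, div_lt_div_iff₀ hε hα0]
    rw [lt_div_iff₀ hc'0] at hαl2
    linarith
  set κ : ℝ := (1 - ε / α) * 2 ^ (-(b / α) - 1 : ℝ) with hκ
  have hκ0 : 0 < κ := by
    apply mul_pos
    · rw [sub_pos, div_lt_one hα0]; exact hα1
    · positivity
  obtain ⟨N, hN⟩ := pow_unbounded_of_one_lt (C' * s / κ) (one_lt_two (α := ℝ))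
  refine ⟨N / δ + b / 2, fun M hM => ?_⟩
  have hb0 : (0 : ℝ) ≤ b := by positivity
  have hM1 : N / δ ≤ M := by linarith
  have hM2 : (b : ℝ) / 2 ≤ M := by
    have : (0 : ℝ) ≤ N / δ := by positivity
    linarith
  have hM0 : 0 ≤ M := le_trans (by positivity) hM2
  set x : ℝ := (2 * M - b) / α with hx
  have hx0 : 0 ≤ x := div_nonneg (by linarith) hα0.le
  obtain ⟨n, f, hn, hd, hI, hJ⟩ := explicitFin s hs b ⌊x⌋₊ m hm
  have hlog : Real.logb 2 (1 / density f) = s := by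
    rw [hd, one_div_one_div, Real.logb_pow, Real.logb_self_eq_one (by norm_num), mul_one]
  have hk1 : (⌊x⌋₊ : ℝ) * α + b ≤ 2 * M := by
    have := Nat.floor_le hx0
    rw [hx, le_div_iff₀ hα0] at this
    linarith
  refine ⟨n, hn, f, hd, ?_, ?_⟩
  · refine le_trans hI ?_
    refine mul_le_mul_of_nonneg_left ?_ (by rw [hd]; positivity)
    have : ((⌊x⌋₊ : ℝ) * α + b) / 2 ≤ M := by linarith
    linarith
  · intro g J hg he
    have h1 := hJ ε g J hg he
    have h2 : (1 - ε / α) * 2 ^ ⌊x⌋₊ ≤ (J.card : ℝ) := by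
      rw [← hα] at h1
      have : (1 - ε / α) * 2 ^ ⌊x⌋₊ = (α - ε) * 2 ^ ⌊x⌋₊ / α := by field_simp
      rw [this, div_le_iff₀ hα0]
      linarith
    rw [hlog]
    have h3 : (2 : ℝ) ^ (x - 1) ≤ 2 ^ ⌊x⌋₊ := by
      rw [← Real.rpow_natCast]
      refine Real.rpow_le_rpow_of_exponent_le one_le_two ?_
      have := Nat.lt_floor_add_one x
      linarith
    have h4 : (2 : ℝ) ^ (x - 1) = 2 ^ (-(b / α) - 1 : ℝ) * (2 ^ (δ * M) * 2 ^ (c' * (M / ε))) := by
      rw [← Real.rpow_add two_pos, ← Real.rpow_add two_pos]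
      congr 1
      rw [hx, hδ]
      field_simp
      ring
    have h5 : (2 : ℝ) ^ N ≤ 2 ^ (δ * M) := by
      rw [← Real.rpow_natCast]
      refine Real.rpow_le_rpow_of_exponent_le one_le_two ?_
      rw [div_le_iff₀ hδ0] at hM1
      linarith
    have h6 : C' * s < κ * 2 ^ N := by
      rw [div_lt_iff₀ hκ0] at hN
      linarith
    have hP : (0 : ℝ) < 2 ^ (c' * (M / ε)) := by positivity
    have h7 : C * s * 2 ^ (c * (M / ε)) ≤ C' * s * 2 ^ (c' * (M / ε)) := by
      have a1 : (2 : ℝ) ^ (c * (M / ε)) ≤ 2 ^ (c' * (M / ε)) := by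
        refine Real.rpow_le_rpow_of_exponent_le one_le_two ?_
        exact mul_le_mul_of_nonneg_right hcc (by positivity)
      have a2 : C * (s : ℝ) ≤ C' * s := mul_le_mul_of_nonneg_right hCC (by positivity)
      calc _ ≤ C' * s * 2 ^ (c * (M / ε)) := mul_le_mul_of_nonneg_right a2 (by positivity)
        _ ≤ _ := mul_le_mul_of_nonneg_left a1 (by positivity)
    have h1ε : 0 < 1 - ε / α := by
      rw [sub_pos, div_lt_one hα0]; exact hα1
    calc _ ≤ C' * s * 2 ^ (c' * (M / ε)) := h7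
      _ < κ * 2 ^ N * 2 ^ (c' * (M / ε)) := mul_lt_mul_of_pos_right h6 hP
      _ ≤ κ * 2 ^ (δ * M) * 2 ^ (c' * (M / ε)) :=
        mul_le_mul_of_nonneg_right (mul_le_mul_of_nonneg_left h5 hκ0.le) hP.le
      _ = (1 - ε / α) * 2 ^ (x - 1) := by rw [h4, hκ]; ring
      _ ≤ (1 - ε / α) * 2 ^ ⌊x⌋₊ := mul_le_mul_of_nonneg_left h3 h1ε.le
      _ ≤ _ := h2

/-- **Main theorem.** (1) Explicit hard functions: for all `s ≥ 1`, `b`, `k` and `m ≤ 2 ^ b` there
is a function `f` of density `μ = 2 ^ (-s)` with `I(f) ≤ 2 μ (log (1 / μ) + (k α + b) / 2)`, where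
`α = m / 2 ^ b`, such that for every `ε` all functions `g` with `Pr[f ≠ g] ≤ ε μ` depend on at
least `(1 - ε / α) 2 ^ k` coordinates.
(2) Let `c < 2`. For every `0 < ε < 1`, every density `2 ^ (-s)`, `s ≥ 1`, every `C` and all
sufficiently large `M` there is an `f` of density `μ = 2 ^ (-s)` with
`I(f) ≤ 2 μ (log (1 / μ) + M)` such that all functions `g` with `Pr[f ≠ g] ≤ ε μ` depend on more
than `C log (1 / μ) 2 ^ (c M / ε)` coordinates.
(3) Hence, for every `c < 2`, the bound of Q1 with `2 ^ (c M / ε)` instead of `2 ^ (M / ε)` fails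
for every single accuracy `0 < ε < 1` and every single density `2 ^ (-s)`, `s ≥ 1`, even if it is
only required for `M ≥ M₀`; Q1 itself is the case `c = 1`. -/
theorem result :
    (∀ s : ℕ, 1 ≤ s → ∀ b k m : ℕ, m ≤ 2 ^ b →
      ∃ (n : ℕ) (f : (Fin n → Bool) → Bool), 1 ≤ n ∧ density f = 1 / 2 ^ s ∧
        totalInfluence f ≤ 2 * density f *
          (Real.logb 2 (1 / density f) + (k * (m / 2 ^ b : ℝ) + b) / 2) ∧
        ∀ (ε : ℝ) (g : (Fin n → Bool) → Bool) (J : Finset (Fin n)), DependsOnlyOn g J →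
          prob (fun x => f x ≠ g x) ≤ ε * density f →
          ((m / 2 ^ b : ℝ) - ε) * 2 ^ k ≤ (m / 2 ^ b : ℝ) * J.card) ∧
    (∀ c : ℝ, c < 2 → ∀ C ε : ℝ, 0 < ε → ε < 1 → ∀ s : ℕ, 1 ≤ s →
      ∃ M₀ : ℝ, ∀ M : ℝ, M₀ ≤ M → ∃ n : ℕ, 1 ≤ n ∧ ∃ f : (Fin n → Bool) → Bool,
        density f = 1 / 2 ^ s ∧
        totalInfluence f ≤ 2 * density f * (Real.logb 2 (1 / density f) + M) ∧
        ∀ (g : (Fin n → Bool) → Bool) (J : Finset (Fin n)), DependsOnlyOn g J →
          prob (fun x => f x ≠ g x) ≤ ε * density f →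
          C * Real.logb 2 (1 / density f) * 2 ^ (c * (M / ε)) < (J.card : ℝ)) ∧
    (∀ c : ℝ, c < 2 → ∀ C ε M₀ : ℝ, 0 < ε → ε < 1 → ∀ s : ℕ, 1 ≤ s →
      ¬ JuntaBound c C ε M₀ s) := by
  refine ⟨fun s hs b k m hm => explicitFin s hs b k m hm,
    fun c hc C ε hε hε1 s hs => strong c C ε hc hε hε1 s hs, ?_⟩
  intro c hc C ε M₀ hε hε1 s hs h
  obtain ⟨M₁, hM₁⟩ := strong c C ε hc hε hε1 s hs
  obtain ⟨n, hn, f, hd, hI, hJ⟩ := hM₁ (max M₁ (max M₀ 1)) (le_max_left _ _)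
  obtain ⟨g, J, hg, hJ1, hp⟩ := h (max M₁ (max M₀ 1))
    (lt_of_lt_of_le one_pos ((le_max_right _ _).trans (le_max_right _ _)))
    ((le_max_left _ _).trans (le_max_right _ _)) n hn f hd hI
  exact absurd (hJ g J hg hp) (not_lt.2 hJ1)

end Pool.Agent.Results.MP_5036fd_co.ExponentTwo
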